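import Pool.Agent.TH359.Inf.Defs

set_option autoImplicit false

open MvPolynomial

namespace Pool.Agent.TH359.Inf

theorem H0_finite (W : WConf) (d : ℕ) : Module.Finite ℂ (H0 W d) := by
  have h : H0 W d ≤ homogeneousSubmodule (Fin 3) ℂ d := fun F hF => hF.1
  have h2 : Module.Finite ℂ (homogeneousSubmodule (Fin 3) ℂ d) :=
    Module.Finite.iff_fg.2 (homogeneousSubmodule_fg (Fin 3) ℂ d)
  exact Submodule.finiteDimensional_of_le h

/-- `f = x^α y^β u` with `u(0,0) ≠ 0`. -/
def Mon (f : Pl) (α β : ℕ) : Prop :=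
  ∃ u : Pl, constantCoeff u ≠ 0 ∧ f = X 0 ^ α * X 1 ^ β * u

theorem Mon.one : Mon 1 0 0 := ⟨1, by simp, by simp⟩

theorem Mon.X0 : Mon (X 0) 1 0 := ⟨1, by simp, by simp⟩

theorem Mon.X1 : Mon (X 1) 0 1 := ⟨1, by simp, by simp⟩

theorem Mon.mul {f g : Pl} {α β γ δ : ℕ} (hf : Mon f α β) (hg : Mon g γ δ) :
    Mon (f * g) (α + γ) (β + δ) := by
  obtain ⟨u, hu, rfl⟩ := hf
  obtain ⟨v, hv, rfl⟩ := hg
  refine ⟨u * v, by rw [map_mul]; exact mul_ne_zero hu hv, by ring⟩

theorem Mon.pow {f : Pl} {α β : ℕ} (hf : Mon f α β) (n : ℕ) : Mon (f ^ n) (n * α) (n * β) := by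
  obtain ⟨u, hu, rfl⟩ := hf
  refine ⟨u ^ n, by rw [map_pow]; exact pow_ne_zero n hu, by ring⟩

theorem constantCoeff_blow (c : Option ℂ) (f : Pl) :
    constantCoeff (blow c f) = constantCoeff f := by
  have h : (constantCoeff : Pl →+* ℂ).comp (blow c : Pl →ₐ[ℂ] Pl).toRingHom = constantCoeff := by
    apply MvPolynomial.ringHom_ext
    · intro r
      simp
    · intro i
      cases c <;> fin_cases i <;> simp [blow]
  exact congrArg (fun φ : Pl →+* ℂ => φ f) h

theorem Mon.blow_none {f : Pl} {α β : ℕ} (hf : Mon f α β) : Mon (blow none f) α (α + β) := by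
  obtain ⟨u, hu, rfl⟩ := hf
  refine ⟨blow none u, by rwa [constantCoeff_blow], ?_⟩
  simp only [map_mul, map_pow]
  have h0 : blow none (X 0) = X 0 * X 1 := by simp [blow]
  have h1 : blow none (X 1) = X 1 := by simp [blow]
  rw [h0, h1]
  ring

theorem Mon.blow_zero {f : Pl} {α β : ℕ} (hf : Mon f α β) :
    Mon (blow (some 0) f) (α + β) β := by
  obtain ⟨u, hu, rfl⟩ := hf
  refine ⟨blow (some 0) u, by rwa [constantCoeff_blow], ?_⟩
  simp only [map_mul, map_pow]
  have h0 : blow (some 0) (X 0) = X 0 := by simp [blow]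
  have h1 : blow (some 0) (X 1) = X 0 * X 1 := by simp [blow]
  rw [h0, h1]
  ring

theorem Mon.blow_some {f : Pl} {α β : ℕ} (hf : Mon f α β) {t : ℂ} (ht : t ≠ 0) :
    Mon (blow (some t) f) (α + β) 0 := by
  obtain ⟨u, hu, rfl⟩ := hf
  refine ⟨(X 1 + C t) ^ β * blow (some t) u, ?_, ?_⟩
  · rw [map_mul, map_pow, constantCoeff_blow]
    refine mul_ne_zero (pow_ne_zero _ ?_) hu
    simpa using ht
  · simp only [map_mul, map_pow]
    have h0 : blow (some t) (X 0) = X 0 := by simp [blow]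
    have h1 : blow (some t) (X 1) = X 0 * (X 1 + C t) := by simp [blow]
    rw [h0, h1, mul_pow, pow_add]
    ring

/-- From a monomial in `x` alone, a finite direction keeps it. -/
theorem Mon.blow_some' {f : Pl} {α : ℕ} (hf : Mon f α 0) (t : ℂ) :
    Mon (blow (some t) f) α 0 := by
  by_cases ht : t = 0
  · subst ht
    exact hf.blow_zero
  · exact hf.blow_some ht

theorem Mon.ord_eq {f : Pl} {α β : ℕ} (hf : Mon f α β) : ord f = ((α + β : ℕ) : ℕ∞) := by
  obtain ⟨u, hu, rfl⟩ := hf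
  have hmon : (X 0 ^ α * X 1 ^ β : Pl) =
      monomial (Finsupp.single 0 α + Finsupp.single 1 β) 1 := by
    rw [X_pow_eq_monomial, X_pow_eq_monomial, monomial_mul, mul_one]
  rw [hmon]
  set t : Fin 2 →₀ ℕ := Finsupp.single 0 α + Finsupp.single 1 β with ht
  have t0 : t 0 = α := by simp [ht]
  have t1 : t 1 = β := by simp [ht]
  apply le_antisymm
  · unfold ord
    have hs : t ∈ (monomial t (1 : ℂ) * u).support := by
      rw [mem_support_iff, coeff_monomial_mul']
      simp only [le_refl, if_true, tsub_self, one_mul]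
      exact hu
    refine (iInf₂_le t hs).trans ?_
    rw [t0, t1]
  · rw [le_ord_iff']
    intro s hs
    rw [mem_support_iff, coeff_monomial_mul'] at hs
    have hle : t ≤ s := by
      by_contra h
      exact hs (if_neg h)
    have h0 := hle 0
    have h1 := hle 1
    rw [t0] at h0
    rw [t1] at h1
    exact_mod_cast add_le_add h0 h1

theorem ord_eq_zero_of_constantCoeff {f : Pl} (hf : constantCoeff f ≠ 0) : ord f = 0 := by
  have : Mon f 0 0 := ⟨f, hf, by simp⟩
  simpa using this.ord_eq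

/-- A homogeneous polynomial of degree `n` vanishes to order at least `n`. -/
theorem le_ord_of_isHomogeneous {f : Pl} {n : ℕ} (hf : f.IsHomogeneous n) : (n : ℕ∞) ≤ ord f := by
  rw [le_ord_iff']
  intro s hs
  have := hf (mem_support_iff.1 hs)
  rw [Finsupp.weight_apply, Finsupp.sum_fintype] at this
  · simp at this
    rw [this]
  · intro i; simp

end Pool.Agent.TH359.Inf
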