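import Pool.Agent.TH359.Inf.Transfer

set_option autoImplicit false

open MvPolynomial

namespace Pool.Agent.TH359.Inf

/-- The directions of the explicit configuration. -/
def cd (a : ℕ) (j : ℕ) : Option ℂ :=
  if j = 1 then none else if j = a + 1 then some 1 else some 0

/-- The number of its points. -/
def nn (a : ℕ) : ℕ := 4 * a ^ 2 + a + 1

/-- A point of `ℙ²`. -/
noncomputable def P0 : P2 := Projectivization.mk ℂ (fun _ => (1 : ℂ)) (by
  intro h
  have := congrFun h 0
  simp at this)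

/-- The multiplicities. -/
def mm (a : ℕ) (n : ℕ) : ℕ := if n = 0 then a + 1 else if n = 1 then a else 1

open Classical in
/-- The explicit configuration. -/
noncomputable def W0 (a : ℕ) : WConf where
  pts := (Finset.range (nn a)).image (fun i => (⟨P0, chain (cd a) i⟩ : InfPt))
  closed := by
    intro q hq p hp
    rw [Finset.mem_image] at hq ⊢
    obtain ⟨i, hi, rfl⟩ := hq
    obtain ⟨h1, h2⟩ := suffix_chain hp.2
    refine ⟨p.dirs.length, ?_, ?_⟩
    · rw [Finset.mem_range] at hi ⊢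
      omega
    · ext1
      · exact hp.1.symm
      · exact h2.symm
  mult := fun p => mm a p.dirs.length

theorem mem_W0 (a : ℕ) (p : InfPt) :
    p ∈ (W0 a).pts ↔ ∃ i < nn a, p = ⟨P0, chain (cd a) i⟩ := by
  unfold W0
  simp only [Finset.mem_image, Finset.mem_range]
  constructor
  · rintro ⟨i, hi, rfl⟩; exact ⟨i, hi, rfl⟩
  · rintro ⟨i, hi, rfl⟩; exact ⟨i, hi, rfl⟩

theorem mult_W0 (a i : ℕ) : (W0 a).mult ⟨P0, chain (cd a) i⟩ = mm a i := by
  unfold W0
  simp

theorem sum_W0 {M : Type*} [AddCommMonoid M] (a : ℕ) (f : InfPt → M) :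
    ∑ p ∈ (W0 a).pts, f p = ∑ i ∈ Finset.range (nn a), f ⟨P0, chain (cd a) i⟩ := by
  classical
  unfold W0
  simp only
  rw [Finset.sum_image]
  intro i _ j _ h
  exact chain_inj h

theorem nn_eq (a : ℕ) (ha : 4 ≤ a) : ∃ m, nn a = m + 2 ∧ m + 1 = 4 * a ^ 2 + a := by
  refine ⟨4 * a ^ 2 + a - 1, ?_, ?_⟩
  · unfold nn
    omega
  · omega

theorem sum_mm {M : Type*} [AddCommMonoid M] (a m : ℕ) (f : ℕ → M) :
    ∑ i ∈ Finset.range (m + 2), f (mm a i) = m • f 1 + f a + f (a + 1) := by
  rw [Finset.sum_range_succ', Finset.sum_range_succ']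
  have : ∀ i ∈ Finset.range m, f (mm a (i + 1 + 1)) = f 1 := by
    intro i _
    simp [mm]
  rw [Finset.sum_congr rfl this, Finset.sum_const, Finset.card_range]
  simp [mm]

theorem three_largest (a : ℕ) (ha : 4 ≤ a) (T : Finset InfPt) (hT : T ⊆ (W0 a).pts)
    (hc : T.card ≤ 3) : ∑ p ∈ T, (W0 a).mult p ≤ 2 * a + 2 := by
  obtain ⟨m, hm, -⟩ := nn_eq a ha
  have h1 : ∑ p ∈ T, (W0 a).mult p ≤ T.card + ∑ p ∈ T, ((W0 a).mult p - 1) := by
    rw [Finset.card_eq_sum_ones, ← Finset.sum_add_distrib]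
    exact Finset.sum_le_sum fun p _ => by omega
  have h2 : ∑ p ∈ T, ((W0 a).mult p - 1) ≤ ∑ p ∈ (W0 a).pts, ((W0 a).mult p - 1) :=
    Finset.sum_le_sum_of_subset hT
  have h3 : ∑ p ∈ (W0 a).pts, ((W0 a).mult p - 1) = (a - 1) + a := by
    rw [sum_W0]
    simp only [mult_W0]
    rw [hm, sum_mm a m (fun x => x - 1)]
    simp
  omega

theorem consistent_W0 (a : ℕ) (ha : 4 ≤ a) : (W0 a).Consistent := by
  classical
  unfold WConf.Consistent
  intro p hp
  obtain ⟨j, hj, rfl⟩ := (mem_W0 a p).1 hp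
  rw [Finset.sum_filter, sum_W0, mult_W0]
  simp only [mult_W0]
  have hprox : ∀ i, Proximate ⟨P0, chain (cd a) i⟩ ⟨P0, chain (cd a) j⟩ →
      (j = 0 → i = 1 ∨ i = 2) ∧ (j = 1 → 2 ≤ i ∧ i ≤ a + 1) ∧ (2 ≤ j → i = j + 1) := by
    intro i hi
    rw [proximate_chain] at hi
    obtain ⟨hji, hk⟩ := hi
    refine ⟨?_, ?_, ?_⟩
    · rintro rfl
      by_contra hcon
      have := hk 2 (by omega) (by omega)
      have h2 : ¬ (2 = a + 1) := by omega
      have h0 : ¬ (0 = a + 1) := by omega
      simp [cd, opp, h2] at this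
    · rintro rfl
      refine ⟨by omega, ?_⟩
      by_contra hcon
      have := hk (a + 1) (by omega) (by omega)
      have h2 : ¬ (a = 0) := by omega
      simp [cd, opp, h2] at this
    · intro hj2
      by_contra hcon
      have := hk (j + 1) (by omega) (by omega)
      have h1 : ¬ (j = 1) := by omega
      have h3 : ¬ (j = 0) := by omega
      unfold cd at this
      simp only [h1, if_false] at this
      have h4 : ¬ (j + 1 = 1) := by omega
      simp only [h4, if_false] at this
      split_ifs at this <;> simp [opp] at this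
  rw [← Finset.sum_filter]
  rcases Nat.lt_or_ge j 2 with hj2 | hj2
  · interval_cases j
    · -- j = 0
      have hsub : (Finset.range (nn a)).filter
          (fun i => Proximate ⟨P0, chain (cd a) i⟩ ⟨P0, chain (cd a) 0⟩) ⊆ {1, 2} := by
        intro i hi
        have := (hprox i (Finset.mem_filter.1 hi).2).1 rfl
        simpa using this
      refine (Finset.sum_le_sum_of_subset hsub).trans ?_
      simp [mm]
    · -- j = 1
      have hsub : (Finset.range (nn a)).filter
          (fun i => Proximate ⟨P0, chain (cd a) i⟩ ⟨P0, chain (cd a) 1⟩) ⊆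
            Finset.Icc 2 (a + 1) := by
        intro i hi
        have := (hprox i (Finset.mem_filter.1 hi).2).2.1 rfl
        rw [Finset.mem_Icc]
        exact this
      refine (Finset.sum_le_sum_of_subset hsub).trans ?_
      have : ∀ i ∈ Finset.Icc 2 (a + 1), mm a i = 1 := by
        intro i hi
        rw [Finset.mem_Icc] at hi
        unfold mm
        rw [if_neg (by omega), if_neg (by omega)]
      rw [Finset.sum_congr rfl this]
      simp [mm]
  · have hsub : (Finset.range (nn a)).filter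
        (fun i => Proximate ⟨P0, chain (cd a) i⟩ ⟨P0, chain (cd a) j⟩) ⊆ {j + 1} := by
      intro i hi
      have := (hprox i (Finset.mem_filter.1 hi).2).2.2 hj2
      simpa using this
    refine (Finset.sum_le_sum_of_subset hsub).trans ?_
    rw [Finset.sum_singleton]
    unfold mm
    rw [if_neg (by omega), if_neg (by omega), if_neg (by omega), if_neg (by omega)]

theorem two_mul_choose (n : ℕ) : (((n + 1).choose 2 : ℕ) : ℤ) * 2 = (n + 1) * n := by
  have h2 : (n + 1).choose 2 * 2 = (n + 1) * n := by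
    rw [Nat.choose_two_right]
    exact Nat.div_mul_cancel (by
      have := Nat.even_mul_pred_self (n + 1)
      exact this.two_dvd)
  exact_mod_cast h2

theorem expDim_neg (t a : ℕ) (ha : 7 * t + 4 ≤ a) :
    ((3 * a + t + 2).choose 2 : ℤ) -
      ∑ p ∈ (W0 a).pts, (((W0 a).mult p + 1).choose 2 : ℤ) < 0 := by
  obtain ⟨m, hm, hm'⟩ := nn_eq a (by omega)
  rw [sum_W0]
  simp only [mult_W0]
  rw [hm, sum_mm a m (fun x => ((x + 1).choose 2 : ℤ))]
  have e1 := two_mul_choose (3 * a + t + 1)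
  have e2 := two_mul_choose a
  have e3 := two_mul_choose (a + 1)
  have e4 : (((1 + 1 : ℕ)).choose 2 : ℤ) = 1 := by norm_num
  have hm2 : (m : ℤ) + 1 = 4 * (a : ℤ) ^ 2 + a := by exact_mod_cast hm'
  have ha' : 7 * (t : ℤ) + 4 ≤ a := by exact_mod_cast ha
  have ht : (0 : ℤ) ≤ t := by positivity
  have hta : (t : ℤ) + 1 ≤ a - 1 - t := by linarith
  simp only [e4, nsmul_eq_mul, mul_one]
  push_cast at e1 e2 e3 ⊢
  have k1 : 0 ≤ (a - 7 * (t : ℤ) - 4) * a := by
    apply mul_nonneg <;> linarith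
  have k2 : 0 < ((t : ℤ) + 1) * (a - t - 2) := by
    apply mul_pos <;> linarith
  have e1' : ((3 * a + t + 1 + 1 : ℕ).choose 2 : ℤ) = ((3 * a + t + 2).choose 2 : ℤ) := rfl
  nlinarith [e1, e2, e3, hm2, k1, k2]

end Pool.Agent.TH359.Inf
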