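import Mathlib

set_option autoImplicit false

open MvPolynomial

namespace Pool.Agent.TH359.Inf

/-- The ring `ℂ[x, y]` of polynomials in two local coordinates `x = X 0`, `y = X 1`. -/
abbrev Pl : Type := MvPolynomial (Fin 2) ℂ

/-- The points of the projective plane `ℙ²(ℂ)`. -/
abbrev P2 : Type := Projectivization ℂ (Fin 3 → ℂ)

/-- A proper or infinitely near point of `ℙ²`: the point `base` of `ℙ²` and the list `dirs` of the
directions of the successive point blow-ups, the last one first. `⟨P, []⟩` is the point `P` itself,
and `⟨P, c :: l⟩` is the point in the direction `c` on the exceptional curve `ℙ¹(ℂ) = ℂ ∪ {∞}` of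
the blow-up of the point `⟨P, l⟩`. The direction `some t` is `y / x = t`, the direction `none` is `∞`,
that is `x / y = 0`, where `x, y` are the local coordinates at the point `⟨P, l⟩`. -/
@[ext] structure InfPt where
  base : P2
  dirs : List (Option ℂ)

/-- The index of the first nonzero homogeneous coordinate of `P`. -/
noncomputable def pivot (P : P2) : Fin 3 :=
  open Classical in if P.rep 0 ≠ 0 then 0 else if P.rep 1 ≠ 0 then 1 else 2

/-- The local equation at `P` of the curve `F = 0` of `ℙ²`, in affine coordinates centred at `P`: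
let `i` be the pivot and `j < k` the other two indices, and scale `P = (p₀ : p₁ : p₂)` so that
`pᵢ = 1`; substitute `Xᵢ ↦ 1`, `Xⱼ ↦ x + pⱼ`, `Xₖ ↦ y + pₖ` in `F`. -/
noncomputable def localEq (P : P2) : MvPolynomial (Fin 3) ℂ →ₐ[ℂ] Pl :=
  aeval ((pivot P).insertNth (α := fun _ => Pl) 1
    (fun m : Fin 2 => X m + C (P.rep ((pivot P).succAbove m) / P.rep (pivot P))))

/-- The blow-up of the origin, near the point in the direction `c` of the exceptional curve and in
coordinates centred at this point: `x ↦ x`, `y ↦ x (y + t)` for `c = some t`, and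
`x ↦ x y`, `y ↦ y` for `c = ∞`. -/
noncomputable def blow : Option ℂ → (Pl →ₐ[ℂ] Pl)
  | some t => aeval ![X 0, X 0 * (X 1 + C t)]
  | none => aeval ![X 0 * X 1, X 1]

/-- The equation of the exceptional curve in these coordinates is `X (excIdx c) = 0`. -/
def excIdx : Option ℂ → Fin 2
  | some _ => 0
  | none => 1

/-- The order of vanishing at the origin: the least degree of a monomial of `f` (`⊤` if `f = 0`). -/
noncomputable def ord (f : Pl) : ℕ∞ := ⨅ s ∈ f.support, ((s 0 + s 1 : ℕ) : ℕ∞)

/-- The strict transform of the curve `f = 0` near the point in the direction `c`: the total transform divided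
by the `ord f`-th power of the equation of the exceptional curve. -/
noncomputable def strict (c : Option ℂ) (f : Pl) : Pl :=
  divMonomial (blow c f) (Finsupp.single (excIdx c) (ord f).toNat)

/-- The strict transform, at the point reached by the further directions `m` (the last one first), of the
exceptional curve which has just been created, `c` being the direction of the point on it. -/
noncomputable def strictExc (c : Option ℂ) : List (Option ℂ) → Pl
  | [] => X (excIdx c)
  | c' :: m => strict c' (strictExc c m)

/-- Precedence: `q` is equal to `p` or infinitely near to `p`. -/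
def Precedes (p q : InfPt) : Prop := p.base = q.base ∧ p.dirs <:+ q.dirs

/-- Proximity: `q` is infinitely near to `p` and lies on the exceptional curve `E_p` of the blow-up
of `p` or on its strict transform. -/
def Proximate (q p : InfPt) : Prop :=
  p.base = q.base ∧ ∃ (m : List (Option ℂ)) (c : Option ℂ), q.dirs = m ++ c :: p.dirs ∧
    0 < ord (strictExc c m)

/-- A weighted configuration: a finite set of proper and infinitely near points of `ℙ²`, closed
under precedence, with a multiplicity at each of its points (the values of `mult` at other points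
play no role). -/
structure WConf where
  pts : Finset InfPt
  closed : ∀ q ∈ pts, ∀ p, Precedes p q → p ∈ pts
  mult : InfPt → ℕ

/-- Consistent: the multiplicity at each point `p` is at least the sum of the multiplicities at the
points proximate to `p`. -/
def WConf.Consistent (W : WConf) : Prop :=
  open Classical in ∀ p ∈ W.pts, ∑ q ∈ W.pts.filter (fun q => Proximate q p), W.mult q ≤ W.mult p

/-- `W` and `W'` have the same proximities (the relations of precedence and of proximity) and the
same multiplicities. -/
def WConf.SameData (W W' : WConf) : Prop :=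
  ∃ e : {p // p ∈ W.pts} ≃ {p // p ∈ W'.pts},
    (∀ p q, Precedes p.1 q.1 ↔ Precedes (e p).1 (e q).1) ∧
    (∀ p q, Proximate p.1 q.1 ↔ Proximate (e p).1 (e q).1) ∧
    ∀ p, W.mult p.1 = W'.mult (e p).1

/-- The pull-back (total transform) of a local equation to the point reached by the directions `l`. -/
noncomputable def pull : List (Option ℂ) → (Pl →ₐ[ℂ] Pl)
  | [] => AlgHom.id ℂ Pl
  | c :: l => (blow c).comp (pull l)

/-- The order along the exceptional curve `E_p` of the pull-back of the curve `F = 0` of `ℙ²`: the
order at `p` of its pull-back to a surface which contains `p`. -/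
noncomputable def ordE (p : InfPt) (F : MvPolynomial (Fin 3) ℂ) : ℕ∞ :=
  ord (pull p.dirs (localEq p.base F))

/-- The local equation at the point `⟨P, l⟩` of the divisor `∑ r_q E_q^*`, the sum over the points
`q ≠ ⟨P, l⟩` which precede `⟨P, l⟩`: each blow-up pulls the divisor back and adds `r_q E_q`. -/
noncomputable def divEq (r : InfPt → ℕ) (P : P2) : List (Option ℂ) → Pl
  | [] => 1
  | c :: l => blow c (divEq r P l) * X (excIdx c) ^ r ⟨P, l⟩

/-- The multiplicity of `E_p` in the divisor `∑ r_q E_q^*`, the sum over all points `q` of the configuration: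
the order at `p` of the sum over the points before `p`, plus `r_p`. -/
noncomputable def ordD (r : InfPt → ℕ) (p : InfPt) : ℕ∞ := ord (divEq r p.base p.dirs) + r p

theorem le_ord_iff' (n : ℕ∞) (f : Pl) :
    n ≤ ord f ↔ ∀ s ∈ f.support, n ≤ ((s 0 + s 1 : ℕ) : ℕ∞) := by
  unfold ord
  simp only [le_iInf_iff]

theorem ord_zero : ord 0 = ⊤ := by
  simp [ord]

theorem le_ord_add {n : ℕ∞} {f g : Pl} (hf : n ≤ ord f) (hg : n ≤ ord g) : n ≤ ord (f + g) := by
  rw [le_ord_iff'] at *
  intro s hs
  rcases Finset.mem_union.1 (MvPolynomial.support_add hs) with h | h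
  · exact hf s h
  · exact hg s h

theorem le_ord_smul {n : ℕ∞} (c : ℂ) {f : Pl} (hf : n ≤ ord f) : n ≤ ord (c • f) := by
  rw [le_ord_iff'] at *
  intro s hs
  exact hf s (MvPolynomial.support_smul hs)

/-- The space `H⁰(ℙ², 𝓗(d))`, `𝓗 = π_* 𝒪_X(-∑ r_p E_p^*)`: the forms `F` of degree `d` whose
pull-back to `X` vanishes along each `E_p` at least to the multiplicity of `E_p` in the divisor
`∑ r_q E_q^*`. -/
noncomputable def H0 (W : WConf) (d : ℕ) : Submodule ℂ (MvPolynomial (Fin 3) ℂ) where
  carrier := {F | F.IsHomogeneous d ∧ ∀ p ∈ W.pts, ordD W.mult p ≤ ordE p F}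
  add_mem' := by
    rintro F G ⟨hF, hF'⟩ ⟨hG, hG'⟩
    refine ⟨hF.add hG, fun p hp => ?_⟩
    unfold ordE
    rw [map_add, map_add]
    exact le_ord_add (hF' p hp) (hG' p hp)
  zero_mem' := by
    refine ⟨isHomogeneous_zero _ _ _, fun p _ => ?_⟩
    unfold ordE
    rw [map_zero, map_zero, ord_zero]
    exact le_top
  smul_mem' := by
    rintro c F ⟨hF, hF'⟩
    refine ⟨(homogeneousSubmodule (Fin 3) ℂ d).smul_mem c hF, fun p hp => ?_⟩
    unfold ordE
    rw [map_smul, map_smul]
    exact le_ord_smul c (hF' p hp)

/-- The expected dimension `max {0, (d+2 choose 2) - ∑ (r_p + 1 choose 2)}`. -/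
noncomputable def expDim (W : WConf) (d : ℕ) : ℤ :=
  max 0 (((d + 2).choose 2 : ℤ) - ∑ p ∈ W.pts, ((W.mult p + 1).choose 2 : ℤ))

end Pool.Agent.TH359.Inf
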