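import Pool.Agent.TH359.Inf.Datum

set_option autoImplicit false

open MvPolynomial

namespace Pool.Agent.TH359.Inf

/-- The linear form whose local equation at `P` is the coordinate `X m`. -/
noncomputable def lin (P : P2) (m : Fin 2) : MvPolynomial (Fin 3) ℂ :=
  X ((pivot P).succAbove m) - C (P.rep ((pivot P).succAbove m) / P.rep (pivot P)) * X (pivot P)

theorem lin_homog (P : P2) (m : Fin 2) : (lin P m).IsHomogeneous 1 := by
  unfold lin
  exact (isHomogeneous_X _ _).sub (isHomogeneous_C_mul_X _ _)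

theorem localEq_lin (P : P2) (m : Fin 2) : localEq P (lin P m) = X m := by
  unfold localEq lin
  simp [Fin.insertNth_apply_succAbove, Fin.insertNth_apply_same]

theorem pull_cons (c : Option ℂ) (l : List (Option ℂ)) (f : Pl) :
    pull (c :: l) f = blow c (pull l f) := rfl

theorem divEq_cons (r : InfPt → ℕ) (P : P2) (c : Option ℂ) (l : List (Option ℂ)) :
    divEq r P (c :: l) = blow c (divEq r P l) * X (excIdx c) ^ r ⟨P, l⟩ := rfl

/-- The local equation of the line through the point in direction `c`. -/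
noncomputable def lineLoc : Option ℂ → Pl
  | some t => X 1 - C t * X 0
  | none => X 0

/-- This line. -/
noncomputable def line (P : P2) : Option ℂ → MvPolynomial (Fin 3) ℂ
  | some t => lin P 1 - C t * lin P 0
  | none => lin P 0

theorem line_homog (P : P2) (c : Option ℂ) : (line P c).IsHomogeneous 1 := by
  cases c with
  | some t => exact (lin_homog P 1).sub ((lin_homog P 0).C_mul t)
  | none => exact lin_homog P 0

theorem localEq_line (P : P2) (c : Option ℂ) : localEq P (line P c) = lineLoc c := by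
  cases c with
  | some t =>
    simp only [line, lineLoc, map_sub, map_mul, localEq_lin]
    congr 2
    unfold localEq
    simp
  | none => exact localEq_lin P 0

theorem lineLoc_homog (c : Option ℂ) : (lineLoc c).IsHomogeneous 1 := by
  cases c with
  | some t => exact (isHomogeneous_X _ _).sub (isHomogeneous_C_mul_X _ _)
  | none => exact isHomogeneous_X _ _

theorem blow_lineLoc (c : Option ℂ) : Mon (blow c (lineLoc c)) 1 1 := by
  refine ⟨1, by simp, ?_⟩
  cases c with
  | some t =>
    simp only [lineLoc, blow, map_sub, map_mul, aeval_X]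
    have : (aeval ![X 0, X 0 * (X 1 + C t)] : Pl →ₐ[ℂ] Pl) (C t) = C t := by simp
    rw [this]
    simp
    ring
  | none =>
    simp [lineLoc, blow]

/-- What is used about the directions `c'` of a configuration with the data of `W0 a`. -/
structure Dirs (a : ℕ) (c : ℕ → Option ℂ) : Prop where
  h1 : c 1 = opp (c 0)
  h2 : ∀ k, 2 ≤ k → k ≤ a → c k = opp (c 1)
  h3 : ∃ t, t ≠ 0 ∧ c (a + 1) = some t
  h4 : ∀ k, a + 2 ≤ k → k + 1 < nn a → ∃ t, c k = some t

theorem dirs_of_prox (a : ℕ) (ha : 4 ≤ a) (c : ℕ → Option ℂ)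
    (h : ∀ i < nn a, ∀ j < nn a, ((j < i ∧ ∀ k, j < k → k < i → c k = opp (c j)) ↔
        (j < i ∧ ∀ k, j < k → k < i → cd a k = opp (cd a j)))) : Dirs a c := by
  have hn : a + 3 < nn a := by
    unfold nn
    nlinarith
  have h1 : c 1 = opp (c 0) := by
    refine ((h 2 (by omega) 0 (by omega)).2 ⟨by omega, ?_⟩).2 1 (by omega) (by omega)
    intro k hk hk'
    have : k = 1 := by omega
    subst this
    have h0 : ¬ (0 = a + 1) := by omega
    simp [cd, opp]
  have h2 : ∀ k, 2 ≤ k → k ≤ a → c k = opp (c 1) := by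
    intro k hk hk'
    refine ((h (a + 1) (by omega) 1 (by omega)).2 ⟨by omega, ?_⟩).2 k (by omega) (by omega)
    intro j hj hj'
    have h1 : ¬ (j = 1) := by omega
    have h3 : ¬ (j = a + 1) := by omega
    simp [cd, opp, h1, h3]
  have h3a : c (a + 1) ≠ opp (c 1) := by
    intro hc
    have hp : 1 < a + 2 ∧ ∀ k, 1 < k → k < a + 2 → c k = opp (c 1) := by
      refine ⟨by omega, fun k hk hk' => ?_⟩
      rcases Nat.lt_or_ge k (a + 1) with hlt | hge
      · exact h2 k (by omega) (by omega)
      · have : k = a + 1 := by omega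
        rw [this, hc]
    have := ((h (a + 2) (by omega) 1 (by omega)).1 hp).2 (a + 1) (by omega) (by omega)
    have h3 : ¬ (a = 0) := by omega
    simp [cd, opp, h3] at this
  have h3b : c (a + 1) ≠ opp (c a) := by
    intro hc
    have hp : a < a + 2 ∧ ∀ k, a < k → k < a + 2 → c k = opp (c a) := by
      refine ⟨by omega, fun k hk hk' => ?_⟩
      have : k = a + 1 := by omega
      rw [this, hc]
    have := ((h (a + 2) (by omega) a (by omega)).1 hp).2 (a + 1) (by omega) (by omega)
    have h3 : ¬ (a = 0) := by omega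
    have h4 : ¬ (a = 1) := by omega
    simp [cd, opp, h3, h4] at this
  have ha2 : c a = opp (c 1) := h2 a (by omega) le_rfl
  have h3 : ∃ t, t ≠ 0 ∧ c (a + 1) = some t := by
    rw [ha2] at h3b
    cases hc : c 1 with
    | none =>
      rw [hc] at h3a h3b
      simp only [opp] at h3a h3b
      cases hc2 : c (a + 1) with
      | none => exact absurd hc2 h3b
      | some t =>
        refine ⟨t, ?_, rfl⟩
        rintro rfl
        exact h3a hc2
    | some s =>
      rw [hc] at h3a h3b
      simp only [opp] at h3a h3b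
      cases hc2 : c (a + 1) with
      | none => exact absurd hc2 h3a
      | some t =>
        refine ⟨t, ?_, rfl⟩
        rintro rfl
        exact h3b hc2
  refine ⟨h1, h2, h3, ?_⟩
  intro k hk
  induction k, hk using Nat.le_induction with
  | base =>
    intro hk
    obtain ⟨t, -, ht⟩ := h3
    cases hc2 : c (a + 2) with
    | some s => exact ⟨s, rfl⟩
    | none =>
      exfalso
      have hp : a + 1 < a + 3 ∧ ∀ k, a + 1 < k → k < a + 3 → c k = opp (c (a + 1)) := by
        refine ⟨by omega, fun k hk hk' => ?_⟩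
        have : k = a + 2 := by omega
        rw [this, hc2, ht]
        rfl
      have := ((h (a + 3) (by omega) (a + 1) (by omega)).1 hp).2 (a + 2) (by omega) (by omega)
      have h3 : ¬ (a = 0) := by omega
      simp [cd, opp, h3] at this
  | succ n hn ih =>
    intro hk
    obtain ⟨s, hs⟩ := ih (by omega)
    cases hc2 : c (n + 1) with
    | some s => exact ⟨s, rfl⟩
    | none =>
      exfalso
      have hp : n < n + 2 ∧ ∀ k, n < k → k < n + 2 → c k = opp (c n) := by
        refine ⟨by omega, fun k hk hk' => ?_⟩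
        have : k = n + 1 := by omega
        rw [this, hc2, hs]
        rfl
      have := ((h (n + 2) (by omega) n (by omega)).1 hp).2 (n + 1) (by omega) (by omega)
      have h3 : ¬ (n = 0) := by omega
      have h4 : ¬ (n = 1) := by omega
      have h5 : ¬ (n = a + 1) := by omega
      have h6 : ¬ (n = a) := by omega
      simp [cd, opp, h3, h4, h5, h6] at this

theorem Mon.cast {f : Pl} {α β γ δ : ℕ} (h : Mon f α β) (h1 : α = γ) (h2 : β = δ) :
    Mon f γ δ := by
  subst h1
  subst h2
  exact h

theorem line_state2 {a : ℕ} {c : ℕ → Option ℂ} (hD : Dirs a c) (n : ℕ) (hn : 2 ≤ n)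
    (hn' : n ≤ a + 1) :
    (c 1 = none ∧ Mon (pull (chain c n) (lineLoc (c 0))) (1 + 2 * (n - 2)) 2) ∨
    (c 1 = some 0 ∧ Mon (pull (chain c n) (lineLoc (c 0))) 2 (1 + 2 * (n - 2))) := by
  have hstart : Mon (pull (chain c 1) (lineLoc (c 0))) 1 1 := by
    have : pull (chain c 1) (lineLoc (c 0)) = blow (c 0) (lineLoc (c 0)) := rfl
    rw [this]
    exact blow_lineLoc _
  induction n, hn using Nat.le_induction with
  | base =>
    have e : pull (chain c 2) (lineLoc (c 0)) = blow (c 1) (pull (chain c 1) (lineLoc (c 0))) := rfl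
    have h1 := hD.h1
    cases hc : c 0 with
    | some t =>
      left
      rw [hc] at h1 hstart e
      simp only [opp] at h1
      refine ⟨h1, ?_⟩
      rw [e, h1]
      exact hstart.blow_none
    | none =>
      right
      rw [hc] at h1 hstart e
      simp only [opp] at h1
      refine ⟨h1, ?_⟩
      rw [e, h1]
      exact hstart.blow_zero
  | succ n hn ih =>
    have e : pull (chain c (n + 1)) (lineLoc (c 0)) =
      blow (c n) (pull (chain c n) (lineLoc (c 0))) := rfl
    have h2 := hD.h2 n hn (by omega)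
    have e2 : 1 + 2 * (n + 1 - 2) = 1 + 2 * (n - 2) + 2 := by omega
    rcases ih (by omega) with ⟨hc, hm⟩ | ⟨hc, hm⟩
    · left
      refine ⟨hc, ?_⟩
      rw [hc] at h2
      simp only [opp] at h2
      rw [e, h2, e2]
      exact hm.blow_zero
    · right
      refine ⟨hc, ?_⟩
      rw [hc] at h2
      simp only [opp] at h2
      rw [e, h2, e2]
      have := hm.blow_none
      rwa [add_comm 2] at this

theorem line_state3 {a : ℕ} (ha : 4 ≤ a) {c : ℕ → Option ℂ} (hD : Dirs a c) (n : ℕ)
    (hn : a + 2 ≤ n) (hn' : n < nn a) :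
    Mon (pull (chain c n) (lineLoc (c 0))) (2 * a + 1) 0 := by
  induction n, hn using Nat.le_induction with
  | base =>
    have e : pull (chain c (a + 2)) (lineLoc (c 0)) =
      blow (c (a + 1)) (pull (chain c (a + 1)) (lineLoc (c 0))) := rfl
    obtain ⟨t, ht, hct⟩ := hD.h3
    rw [e, hct]
    rcases line_state2 hD (a + 1) (by omega) le_rfl with ⟨-, hm⟩ | ⟨-, hm⟩
    · have := hm.blow_some ht
      have e2 : 1 + 2 * (a + 1 - 2) + 2 = 2 * a + 1 := by omega
      rwa [e2] at this
    · have := hm.blow_some ht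
      have e2 : 2 + (1 + 2 * (a + 1 - 2)) = 2 * a + 1 := by omega
      rwa [e2] at this
  | succ n hn ih =>
    have e : pull (chain c (n + 1)) (lineLoc (c 0)) =
      blow (c n) (pull (chain c n) (lineLoc (c 0))) := rfl
    obtain ⟨t, ht⟩ := hD.h4 n hn hn'
    rw [e, ht]
    exact (ih (by omega)).blow_some' t

theorem div_state2 {a : ℕ} {c : ℕ → Option ℂ} (hD : Dirs a c) (P : P2) (r : InfPt → ℕ)
    (h0 : r ⟨P, chain c 0⟩ = a + 1) (h1 : r ⟨P, chain c 1⟩ = a)
    (h2 : ∀ k, 2 ≤ k → k < nn a → r ⟨P, chain c k⟩ = 1) (n : ℕ) (hn : 2 ≤ n)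
    (hn' : n ≤ a + 1) (hnn : n < nn a) :
    (c 1 = none ∧ Mon (divEq r P (chain c n)) (a + 1 + (n - 2) * (2 * a + 2)) (2 * a + 1)) ∨
    (c 1 = some 0 ∧ Mon (divEq r P (chain c n)) (2 * a + 1) (a + 1 + (n - 2) * (2 * a + 2))) := by
  induction n, hn using Nat.le_induction with
  | base =>
    have e : divEq r P (chain c 2) = blow (c 1) (blow (c 0) 1 * X (excIdx (c 0)) ^ (a + 1)) *
        X (excIdx (c 1)) ^ a := by
      have : divEq r P (chain c 2) = blow (c 1) (blow (c 0) 1 * X (excIdx (c 0)) ^
        r ⟨P, chain c 0⟩) * X (excIdx (c 1)) ^ r ⟨P, chain c 1⟩ := rfl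
      rw [this, h0, h1]
    have hc1 := hD.h1
    have e2 : a + 1 + (2 - 2) * (2 * a + 2) = a + 1 := by simp
    rw [e2]
    rw [map_one, one_mul] at e
    cases hc : c 0 with
    | some t =>
      left
      rw [hc] at hc1 e
      simp only [opp] at hc1
      refine ⟨hc1, ?_⟩
      rw [hc1] at e
      simp only [excIdx] at e
      rw [e]
      exact ((Mon.X0.pow (a + 1)).blow_none.mul (Mon.X1.pow a)).cast (by ring) (by ring)
    | none =>
      right
      rw [hc] at hc1 e
      simp only [opp] at hc1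
      refine ⟨hc1, ?_⟩
      rw [hc1] at e
      simp only [excIdx] at e
      rw [e]
      exact ((Mon.X1.pow (a + 1)).blow_zero.mul (Mon.X0.pow a)).cast (by ring) (by ring)
  | succ n hn ih =>
    have e : divEq r P (chain c (n + 1)) = blow (c n) (divEq r P (chain c n)) *
        X (excIdx (c n)) ^ r ⟨P, chain c n⟩ := rfl
    rw [h2 n hn (by omega), pow_one] at e
    have hc2 := hD.h2 n hn (by omega)
    have e2 : a + 1 + (n + 1 - 2) * (2 * a + 2) =
        a + 1 + (n - 2) * (2 * a + 2) + (2 * a + 1) + 1 := by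
      obtain ⟨m, rfl⟩ := Nat.exists_eq_add_of_le hn
      have e3 : 2 + m + 1 - 2 = m + 1 := by omega
      have e4 : 2 + m - 2 = m := by omega
      rw [e3, e4]
      ring
    rcases ih (by omega) (by omega) with ⟨hc, hm⟩ | ⟨hc, hm⟩
    · left
      refine ⟨hc, ?_⟩
      rw [hc] at hc2
      simp only [opp] at hc2
      rw [hc2] at e
      simp only [excIdx] at e
      rw [e, e2]
      exact (hm.blow_zero.mul Mon.X0).cast rfl (add_zero _)
    · right
      refine ⟨hc, ?_⟩
      rw [hc] at hc2
      simp only [opp] at hc2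
      rw [hc2] at e
      simp only [excIdx] at e
      rw [e, e2]
      exact (hm.blow_none.mul Mon.X1).cast (add_zero _) (by rw [add_comm (2 * a + 1)])

theorem div_state3 {a : ℕ} (ha : 4 ≤ a) {c : ℕ → Option ℂ} (hD : Dirs a c) (P : P2)
    (r : InfPt → ℕ)
    (h0 : r ⟨P, chain c 0⟩ = a + 1) (h1 : r ⟨P, chain c 1⟩ = a)
    (h2 : ∀ k, 2 ≤ k → k < nn a → r ⟨P, chain c k⟩ = 1) (n : ℕ) (hn : a + 2 ≤ n)
    (hnn : n < nn a) :
    Mon (divEq r P (chain c n)) (2 * a ^ 2 + 3 * a + 1 + (n - (a + 2))) 0 := by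
  induction n, hn using Nat.le_induction with
  | base =>
    have e : divEq r P (chain c (a + 2)) = blow (c (a + 1)) (divEq r P (chain c (a + 1))) *
        X (excIdx (c (a + 1))) ^ r ⟨P, chain c (a + 1)⟩ := rfl
    rw [h2 (a + 1) (by omega) (by omega), pow_one] at e
    obtain ⟨t, ht, hct⟩ := hD.h3
    rw [hct] at e
    simp only [excIdx] at e
    rw [e]
    have e3 : a + 1 - 2 = a - 1 := by omega
    obtain ⟨b, rfl⟩ := Nat.exists_eq_add_of_le ha
    have e4 : 4 + b - 1 = 3 + b := by omega
    rcases div_state2 hD P r h0 h1 h2 (4 + b + 1) (by omega) le_rfl (by omega) with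
      ⟨-, hm⟩ | ⟨-, hm⟩
    · have := (hm.blow_some ht).mul Mon.X0
      rw [e3, e4] at this
      refine this.cast ?_ ?_
      · simp only [Nat.sub_self]
        ring
      · ring
    · have := (hm.blow_some ht).mul Mon.X0
      rw [e3, e4] at this
      refine this.cast ?_ ?_
      · simp only [Nat.sub_self]
        ring
      · ring
  | succ n hn ih =>
    have e : divEq r P (chain c (n + 1)) = blow (c n) (divEq r P (chain c n)) *
        X (excIdx (c n)) ^ r ⟨P, chain c n⟩ := rfl
    rw [h2 n (by omega) (by omega), pow_one] at e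
    obtain ⟨t, ht⟩ := hD.h4 n hn hnn
    rw [ht] at e
    simp only [excIdx] at e
    rw [e]
    have := ((ih (by omega)).blow_some' t).mul Mon.X0
    exact this.cast (by omega) (by omega)

theorem le_ord_mul {n : ℕ∞} {f : Pl} (hf : n ≤ ord f) (g : Pl) : n ≤ ord (f * g) := by
  classical
  rw [le_ord_iff'] at *
  intro s hs
  obtain ⟨s1, h1, s2, -, rfl⟩ := Finset.mem_add.1 (MvPolynomial.support_mul f g hs)
  refine (hf s1 h1).trans ?_
  have : s1 0 + s1 1 ≤ (s1 + s2) 0 + (s1 + s2) 1 := by
    simp only [Finsupp.add_apply]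
    omega
  exact_mod_cast this

/-- The unions of the `3a`-fold line and of a curve of degree `t` lie in the system. -/
theorem line_mem {a : ℕ} (ha : 4 ≤ a) (W' : WConf) (P : P2) (c : ℕ → Option ℂ)
    (hpts : ∀ p, p ∈ W'.pts ↔ ∃ i < nn a, p = ⟨P, chain c i⟩)
    (hm : ∀ i < nn a, mm a i = W'.mult ⟨P, chain c i⟩) (hD : Dirs a c)
    (t : ℕ) (G : MvPolynomial (Fin 3) ℂ) (hG : G.IsHomogeneous t) :
    line P (c 0) ^ (3 * a) * G ∈ H0 W' (3 * a + t) := by
  have hnn : nn a = 4 * a ^ 2 + a + 1 := rfl
  have hn2 : a + 2 < nn a := by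
    rw [hnn]; nlinarith
  refine ⟨?_, ?_⟩
  · have := (line_homog P (c 0)).pow (3 * a)
    rw [one_mul] at this
    exact this.mul hG
  intro p hp
  obtain ⟨n, hn, rfl⟩ := (hpts p).1 hp
  have h0 : W'.mult ⟨P, chain c 0⟩ = a + 1 := by rw [← hm 0 (by omega)]; rfl
  have h1 : W'.mult ⟨P, chain c 1⟩ = a := by rw [← hm 1 (by omega)]; rfl
  have h2 : ∀ k, 2 ≤ k → k < nn a → W'.mult ⟨P, chain c k⟩ = 1 := by
    intro k hk hk'
    rw [← hm k hk']
    unfold mm
    rw [if_neg (by omega), if_neg (by omega)]
  unfold ordD ordE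
  simp only [map_mul, map_pow, localEq_line]
  refine le_ord_mul ?_ _
  have hcast : ∀ (x y : ℕ), x ≤ y → (x : ℕ∞) ≤ (y : ℕ∞) := fun x y h => by exact_mod_cast h
  rcases Nat.lt_or_ge n 2 with hlt | hge
  · interval_cases n
    · -- the root
      have e1 : ord (divEq W'.mult P (chain c 0)) = 0 := by
        have h1 : divEq W'.mult P (chain c 0) = 1 := rfl
        have := Mon.one.ord_eq
        rw [h1]
        simpa using this
      have e2 : ((3 * a : ℕ) : ℕ∞) ≤ ord (lineLoc (c 0) ^ (3 * a)) := by
        have := (lineLoc_homog (c 0)).pow (3 * a)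
        rw [one_mul] at this
        exact le_ord_of_isHomogeneous this
      rw [e1, h0, zero_add]
      refine (hcast _ _ (by omega)).trans e2
    · -- the second point
      have e0 : divEq W'.mult P (chain c 1) = blow (c 0) 1 * X (excIdx (c 0)) ^ (a + 1) := by
        have : divEq W'.mult P (chain c 1) = blow (c 0) 1 * X (excIdx (c 0)) ^
          W'.mult ⟨P, chain c 0⟩ := rfl
        rw [this, h0]
      have e1 : ord (divEq W'.mult P (chain c 1)) = ((a + 1 : ℕ) : ℕ∞) := by
        rw [e0, map_one, one_mul]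
        cases c 0 with
        | some t =>
          have := (Mon.X0.pow (a + 1)).ord_eq
          simp only [excIdx]
          rw [this]
          congr 1
          ring
        | none =>
          have := (Mon.X1.pow (a + 1)).ord_eq
          simp only [excIdx]
          rw [this]
          congr 1
          ring
      have e2 : ord (pull (chain c 1) (lineLoc (c 0)) ^ (3 * a)) = ((6 * a : ℕ) : ℕ∞) := by
        have e3 : pull (chain c 1) (lineLoc (c 0)) = blow (c 0) (lineLoc (c 0)) := rfl
        rw [e3, ((blow_lineLoc (c 0)).pow (3 * a)).ord_eq]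
        congr 1
        ring
      rw [e1, h1, e2]
      rw [← Nat.cast_add]
      exact hcast _ _ (by omega)
  · rw [h2 n hge hn]
    rcases Nat.lt_or_ge n (a + 2) with hlt' | hge'
    · have hd : ord (divEq W'.mult P (chain c n)) =
          ((a + 1 + (n - 2) * (2 * a + 2) + (2 * a + 1) : ℕ) : ℕ∞) := by
        rcases div_state2 hD P W'.mult h0 h1 h2 n hge (by omega) hn with ⟨-, h⟩ | ⟨-, h⟩
        · exact h.ord_eq
        · rw [h.ord_eq, add_comm (2 * a + 1)]
      have hl : ord (pull (chain c n) (lineLoc (c 0)) ^ (3 * a)) =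
          ((3 * a * (3 + 2 * (n - 2)) : ℕ) : ℕ∞) := by
        rcases line_state2 hD n hge (by omega) with ⟨-, h⟩ | ⟨-, h⟩
        · rw [(h.pow (3 * a)).ord_eq]
          congr 1
          ring
        · rw [(h.pow (3 * a)).ord_eq]
          congr 1
          ring
      rw [hd, hl, ← Nat.cast_add]
      apply hcast
      obtain ⟨m, rfl⟩ := Nat.exists_eq_add_of_le hge
      have e4 : 2 + m - 2 = m := by omega
      rw [e4]
      nlinarith
    · rw [(div_state3 ha hD P W'.mult h0 h1 h2 n hge' hn).ord_eq,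
        ((line_state3 ha hD n hge' hn).pow (3 * a)).ord_eq, ← Nat.cast_add]
      apply hcast
      have : n - (a + 2) + (a + 2) < 4 * a ^ 2 + a + 1 := by omega
      nlinarith

theorem lineLoc_ne_zero (c : Option ℂ) : lineLoc c ≠ 0 := by
  cases c with
  | some t =>
    intro h
    have h1 : lineLoc (some t) = X 1 - C t * X 0 := rfl
    rw [h1] at h
    have := congrArg (eval ![0, 1]) h
    simp at this
  | none => exact X_ne_zero 0

theorem le_finrank_of_linearIndependent {M : Type*} [AddCommGroup M] [Module ℂ M]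
    (S : Submodule ℂ M) [Module.Finite ℂ S] {n : ℕ} (v : Fin n → M)
    (hv : LinearIndependent ℂ v) (hS : ∀ i, v i ∈ S) : n ≤ Module.finrank ℂ S := by
  have h : LinearIndependent ℂ (fun i => (⟨v i, hS i⟩ : S)) :=
    LinearIndependent.of_comp S.subtype hv
  simpa using h.fintype_card_le_finrank

/-- `t + 1` monomials of degree `t`. -/
noncomputable def ee (t : ℕ) (i : Fin (t + 1)) : Fin 3 →₀ ℕ :=
  Finsupp.single 0 (i : ℕ) + Finsupp.single 1 (t - i)

theorem ee_injective (t : ℕ) : Function.Injective (ee t) := by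
  intro i j hij
  have := congrArg (fun s : Fin 3 →₀ ℕ => s 0) hij
  simp [ee] at this
  exact Fin.ext this

theorem ee_homog (t : ℕ) (i : Fin (t + 1)) : (monomial (ee t i) (1 : ℂ)).IsHomogeneous t := by
  apply isHomogeneous_monomial
  simp only [ee, map_add, Finsupp.degree_single]
  omega

theorem ee_li (t : ℕ) : LinearIndependent ℂ (fun i : Fin (t + 1) => (monomial (ee t i) (1 : ℂ) :
    MvPolynomial (Fin 3) ℂ)) := by
  have heq : (fun i : Fin (t + 1) => (monomial (ee t i) (1 : ℂ) : MvPolynomial (Fin 3) ℂ)) =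
      (basisMonomials (Fin 3) ℂ) ∘ ee t := by
    funext i
    simp
  rw [heq]
  exact (basisMonomials (Fin 3) ℂ).linearIndependent.comp _ (ee_injective t)

theorem mul_li {n : ℕ} (L : MvPolynomial (Fin 3) ℂ) (hL : L ≠ 0)
    (v : Fin n → MvPolynomial (Fin 3) ℂ) (hv : LinearIndependent ℂ v) :
    LinearIndependent ℂ (fun i => L * v i) := by
  rw [Fintype.linearIndependent_iff] at *
  intro g hg i
  apply hv g
  have h1 : ∑ i, g i • (L * v i) = L * ∑ i, g i • v i := by
    rw [Finset.mul_sum]
    refine Finset.sum_congr rfl fun i _ => ?_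
    rw [mul_smul_comm]
  rw [h1] at hg
  exact (mul_eq_zero.1 hg).resolve_left hL

theorem le_finrank {t a : ℕ} (ha : 4 ≤ a) (W' : WConf) (h : (W0 a).SameData W') :
    t + 1 ≤ Module.finrank ℂ (H0 W' (3 * a + t)) := by
  have hn : 0 < nn a := by unfold nn; omega
  obtain ⟨P, c, hpts, hm, hprox⟩ := exists_chain_of_sameData hn P0 (cd a) (mem_W0 a) h
  have hD := dirs_of_prox a ha c hprox
  have hne : line P (c 0) ^ (3 * a) ≠ 0 := by
    apply pow_ne_zero
    intro h0
    have := localEq_line P (c 0)
    rw [h0, map_zero] at this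
    exact lineLoc_ne_zero _ this.symm
  have hfin := H0_finite W' (3 * a + t)
  refine le_finrank_of_linearIndependent (H0 W' (3 * a + t)) _ (mul_li _ hne _ (ee_li t)) ?_
  intro i
  exact line_mem ha W' P c hpts (fun i hi => by rw [← hm i hi, mult_W0]) hD t _ (ee_homog t i)

theorem expDim_eq_zero {t a : ℕ} (ha : 7 * t + 4 ≤ a) (W' : WConf) (h : (W0 a).SameData W') :
    expDim W' (3 * a + t) = 0 := by
  obtain ⟨e, -, -, hm⟩ := h
  have hsum : ∑ p ∈ W'.pts, ((W'.mult p + 1).choose 2 : ℤ) =
      ∑ p ∈ (W0 a).pts, (((W0 a).mult p + 1).choose 2 : ℤ) := by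
    rw [← Finset.sum_coe_sort, ← Finset.sum_coe_sort (W0 a).pts]
    rw [← Equiv.sum_comp e]
    refine Finset.sum_congr rfl fun p _ => ?_
    rw [hm p]
  unfold expDim
  rw [hsum]
  have := expDim_neg t a ha
  exact max_eq_left this.le

end Pool.Agent.TH359.Inf
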