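import Pool.Agent.TH359.Inf.Basic

set_option autoImplicit false

open MvPolynomial

namespace Pool.Agent.TH359.Inf

/-- The direction in which the exceptional curve continues. -/
def opp : Option ℂ → Option ℂ
  | some _ => none
  | none => some 0

theorem strict_of_constantCoeff {f : Pl} (hf : constantCoeff f ≠ 0) (c : Option ℂ) :
    constantCoeff (strict c f) ≠ 0 := by
  unfold strict
  rw [ord_eq_zero_of_constantCoeff hf]
  simp only [ENat.toNat_zero, Finsupp.single_zero, divMonomial_zero]
  rwa [constantCoeff_blow]

theorem ord_X (i : Fin 2) : ord (X i) = 1 := by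
  fin_cases i
  · simpa using Mon.X0.ord_eq
  · simpa using Mon.X1.ord_eq

theorem strict_X_opp (c : Option ℂ) : strict (opp c) (X (excIdx c)) = X (excIdx c) := by
  unfold strict
  rw [ord_X]
  cases c with
  | some t =>
    simp only [opp, excIdx]
    have : blow none (X 0) = X 0 * X 1 := by simp [blow]
    rw [this]
    simp
  | none =>
    simp only [opp, excIdx]
    have : blow (some 0) (X 1) = X 0 * X 1 := by simp [blow]
    rw [this]
    simp

theorem strict_X_ne (c c' : Option ℂ) (h : c' ≠ opp c) :
    constantCoeff (strict c' (X (excIdx c))) ≠ 0 := by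
  unfold strict
  rw [ord_X]
  cases c with
  | some t =>
    simp only [opp, excIdx] at *
    cases c' with
    | none => exact absurd rfl h
    | some s =>
      have : blow (some s) (X 0) = X 0 := by simp [blow]
      simp [this]
  | none =>
    simp only [opp, excIdx] at *
    cases c' with
    | none =>
      have : blow none (X 1) = X 1 := by simp [blow]
      simp [this]
    | some s =>
      have hs : s ≠ 0 := fun hs => h (by rw [hs])
      have : blow (some s) (X 1) = X 0 * (X 1 + C s) := by simp [blow]
      simp [this, hs]

theorem strictExc_of_all (c : Option ℂ) (m : List (Option ℂ)) (h : ∀ x ∈ m, x = opp c) :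
    strictExc c m = X (excIdx c) := by
  induction m with
  | nil => rfl
  | cons x m ih =>
    rw [strictExc, ih (fun y hy => h y (List.mem_cons_of_mem _ hy)), h x List.mem_cons_self]
    exact strict_X_opp c

theorem strictExc_of_not (c : Option ℂ) (m : List (Option ℂ)) (h : ¬ ∀ x ∈ m, x = opp c) :
    constantCoeff (strictExc c m) ≠ 0 := by
  induction m with
  | nil => simp at h
  | cons x m ih =>
    rw [strictExc]
    by_cases hm : ∀ y ∈ m, y = opp c
    · rw [strictExc_of_all c m hm]
      apply strict_X_ne
      intro hx
      apply h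
      intro y hy
      rcases List.mem_cons.1 hy with rfl | hy
      · exact hx
      · exact hm y hy
    · exact strict_of_constantCoeff (ih hm) x

theorem ord_strictExc (c : Option ℂ) (m : List (Option ℂ)) :
    0 < ord (strictExc c m) ↔ ∀ x ∈ m, x = opp c := by
  constructor
  · intro h
    by_contra hc
    rw [ord_eq_zero_of_constantCoeff (strictExc_of_not c m hc)] at h
    exact absurd h (lt_irrefl _)
  · intro h
    rw [strictExc_of_all c m h, ord_X]
    exact one_pos

/-- The list of the first `n` directions `c 0, c 1, …` (the last one first). -/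
def chain (c : ℕ → Option ℂ) : ℕ → List (Option ℂ)
  | 0 => []
  | n + 1 => c n :: chain c n

@[simp] theorem chain_length (c : ℕ → Option ℂ) (n : ℕ) : (chain c n).length = n := by
  induction n with
  | zero => rfl
  | succ n ih => simp [chain, ih]

theorem chain_congr {c c' : ℕ → Option ℂ} {n : ℕ} (h : ∀ k < n, c k = c' k) :
    chain c n = chain c' n := by
  induction n with
  | zero => rfl
  | succ n ih =>
    rw [chain, chain, h n (Nat.lt_succ_self n), ih (fun k hk => h k (hk.trans (Nat.lt_succ_self n)))]

theorem exists_chain (l : List (Option ℂ)) : ∃ c, l = chain c l.length := by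
  induction l with
  | nil => exact ⟨fun _ => none, rfl⟩
  | cons x l ih =>
    obtain ⟨c, hc⟩ := ih
    refine ⟨Function.update c l.length x, ?_⟩
    rw [List.length_cons, chain, Function.update_self]
    congr 1
    rw [hc, chain_length]
    apply chain_congr
    intro k hk
    rw [Function.update_of_ne (ne_of_lt hk)]

theorem chain_add (c : ℕ → Option ℂ) (j n : ℕ) :
    chain c (j + n) = chain (fun k => c (j + k)) n ++ chain c j := by
  induction n with
  | zero => rfl
  | succ n ih =>
    rw [← Nat.add_assoc, chain, ih, chain, List.cons_append]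

theorem mem_chain (c : ℕ → Option ℂ) (n : ℕ) (x : Option ℂ) :
    x ∈ chain c n ↔ ∃ k < n, c k = x := by
  induction n with
  | zero => simp [chain]
  | succ n ih =>
    rw [chain, List.mem_cons, ih]
    constructor
    · rintro (rfl | ⟨k, hk, rfl⟩)
      · exact ⟨n, Nat.lt_succ_self n, rfl⟩
      · exact ⟨k, hk.trans (Nat.lt_succ_self n), rfl⟩
    · rintro ⟨k, hk, rfl⟩
      rcases Nat.lt_succ_iff_lt_or_eq.1 hk with h | rfl
      · exact Or.inr ⟨k, h, rfl⟩
      · exact Or.inl rfl

theorem suffix_chain {c : ℕ → Option ℂ} {n : ℕ} {s : List (Option ℂ)} (h : s <:+ chain c n) :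
    s.length ≤ n ∧ s = chain c s.length := by
  have h1 := h.length_le
  rw [chain_length] at h1
  refine ⟨h1, ?_⟩
  obtain ⟨t, ht⟩ := h
  obtain ⟨k, rfl⟩ := Nat.exists_eq_add_of_le h1
  rw [chain_add] at ht
  have hl : t.length = (chain (fun k => c (s.length + k)) k).length := by
    have := congrArg List.length ht
    simp only [List.length_append, chain_length] at this ⊢
    omega
  exact (List.append_inj ht hl).2

theorem chain_suffix (c : ℕ → Option ℂ) {i j : ℕ} (h : i ≤ j) : chain c i <:+ chain c j := by
  obtain ⟨k, rfl⟩ := Nat.exists_eq_add_of_le h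
  exact ⟨_, (chain_add c i k).symm⟩

theorem proximate_chain (P : P2) (c : ℕ → Option ℂ) (i j : ℕ) :
    Proximate ⟨P, chain c i⟩ ⟨P, chain c j⟩ ↔ j < i ∧ ∀ k, j < k → k < i → c k = opp (c j) := by
  unfold Proximate
  simp only [true_and]
  constructor
  · rintro ⟨m, x, hm, ho⟩
    rw [ord_strictExc] at ho
    have hl := congrArg List.length hm
    simp only [List.length_append, List.length_cons, chain_length] at hl
    have hi : i = (j + 1) + m.length := by omega
    have hlt : j < i := by omega
    rw [hi, chain_add] at hm
    have hm' := List.append_inj hm (by rw [chain_length])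
    obtain ⟨hm1, hm2⟩ := hm'
    rw [chain, List.cons.injEq] at hm2
    refine ⟨hlt, fun k hk hk' => ?_⟩
    rw [hm2.1]
    apply ho
    rw [← hm1, mem_chain]
    exact ⟨k - (j + 1), by omega, by congr 1; omega⟩
  · rintro ⟨hlt, h⟩
    obtain ⟨n, rfl⟩ := Nat.exists_eq_add_of_lt hlt
    refine ⟨chain (fun k => c (j + 1 + k)) n, c j, ?_, ?_⟩
    · have : j + n + 1 = (j + 1) + n := by omega
      rw [this, chain_add]
      rfl
    · rw [ord_strictExc]
      intro x hx
      rw [mem_chain] at hx
      obtain ⟨k, hk, rfl⟩ := hx
      exact h _ (by omega) (by omega)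

theorem precedes_chain (P : P2) (c : ℕ → Option ℂ) (i j : ℕ) :
    Precedes ⟨P, chain c i⟩ ⟨P, chain c j⟩ ↔ i ≤ j := by
  unfold Precedes
  simp only [true_and]
  constructor
  · intro h
    simpa using h.length_le
  · exact chain_suffix c

end Pool.Agent.TH359.Inf
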