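import Pool.Agent.TH359.Inf.Prox

set_option autoImplicit false

open MvPolynomial

namespace Pool.Agent.TH359.Inf

theorem chain_inj {P : P2} {c : ℕ → Option ℂ} {i j : ℕ}
    (h : (⟨P, chain c i⟩ : InfPt) = ⟨P, chain c j⟩) : i = j := by
  have := congrArg (fun p : InfPt => p.dirs.length) h
  simpa using this

/-- A configuration with the same data as a chain is a chain. -/
theorem exists_chain_of_sameData {W W' : WConf} {N : ℕ} (hN : 0 < N) (P : P2)
    (c : ℕ → Option ℂ) (hW : ∀ p, p ∈ W.pts ↔ ∃ i < N, p = ⟨P, chain c i⟩)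
    (h : W.SameData W') :
    ∃ (P' : P2) (c' : ℕ → Option ℂ), (∀ p, p ∈ W'.pts ↔ ∃ i < N, p = ⟨P', chain c' i⟩) ∧
      (∀ i < N, W.mult ⟨P, chain c i⟩ = W'.mult ⟨P', chain c' i⟩) ∧
      ∀ i < N, ∀ j < N, ((j < i ∧ ∀ k, j < k → k < i → c' k = opp (c' j)) ↔
        (j < i ∧ ∀ k, j < k → k < i → c k = opp (c j))) := by
  obtain ⟨e, hprec, hprox, hmult⟩ := h
  have hmem : ∀ i : Fin N, (⟨P, chain c i⟩ : InfPt) ∈ W.pts := fun i => (hW _).2 ⟨i, i.2, rfl⟩
  let E : Fin N → {p // p ∈ W.pts} := fun i => ⟨⟨P, chain c i⟩, hmem i⟩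
  have hE : Function.Surjective E := by
    rintro ⟨p, hp⟩
    obtain ⟨i, hi, rfl⟩ := (hW p).1 hp
    exact ⟨⟨i, hi⟩, rfl⟩
  let Q : Fin N → {p // p ∈ W'.pts} := fun i => e (E i)
  have hQ : Function.Surjective Q := e.surjective.comp hE
  have hQprec : ∀ i j : Fin N, Precedes (Q i).1 (Q j).1 ↔ (i : ℕ) ≤ j := by
    intro i j
    rw [← hprec (E i) (E j)]
    exact precedes_chain P c i j
  have hQprox : ∀ i j : Fin N, Proximate (Q i).1 (Q j).1 ↔
      ((j : ℕ) < i ∧ ∀ k, (j : ℕ) < k → k < i → c k = opp (c j)) := by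
    intro i j
    rw [← hprox (E i) (E j)]
    exact proximate_chain P c i j
  let top : Fin N := ⟨N - 1, by omega⟩
  obtain ⟨c', hc'⟩ := exists_chain (Q top).1.dirs
  set P' := (Q top).1.base with hP'
  have hQi : ∀ i : Fin N, (Q i).1 = ⟨P', chain c' (Q i).1.dirs.length⟩ := by
    intro i
    have hp := (hQprec i top).2 (by simp only [top]; omega)
    have hs := hp.2
    rw [hc'] at hs
    ext1
    · exact hp.1
    · exact (suffix_chain hs).2
  set len : Fin N → ℕ := fun i => (Q i).1.dirs.length with hlen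
  have hlen_le : ∀ i j : Fin N, len i ≤ len j ↔ (i : ℕ) ≤ j := by
    intro i j
    rw [← hQprec i j, hQi i, hQi j, precedes_chain]
  have hdown : ∀ (i : Fin N) (t : ℕ), t ≤ len i → ∃ j : Fin N, len j = t := by
    intro i t ht
    have hmem' : (⟨P', chain c' t⟩ : InfPt) ∈ W'.pts := by
      apply W'.closed (Q i).1 (Q i).2
      rw [hQi i, precedes_chain]
      exact ht
    obtain ⟨j, hj⟩ := hQ ⟨_, hmem'⟩
    refine ⟨j, ?_⟩
    simp only [hlen, hj, chain_length]
  have hlen_eq : ∀ n (hn : n < N), len ⟨n, hn⟩ = n := by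
    intro n
    induction n using Nat.strong_induction_on with
    | _ n ih =>
      intro hn
      rcases lt_trichotomy (len ⟨n, hn⟩) n with hlt | heq | hgt
      · exfalso
        have h1 := ih (len ⟨n, hn⟩) hlt (hlt.trans hn)
        have h2 := (hlen_le ⟨n, hn⟩ ⟨len ⟨n, hn⟩, hlt.trans hn⟩).1 (le_of_eq h1.symm)
        simp only at h2
        omega
      · exact heq
      · exfalso
        obtain ⟨j, hj⟩ := hdown ⟨n, hn⟩ n hgt.le
        rcases lt_trichotomy (j : ℕ) n with h1 | h1 | h1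
        · have := ih j h1 j.2
          simp only [Fin.eta] at this
          omega
        · have : j = ⟨n, hn⟩ := Fin.ext h1
          rw [this] at hj
          omega
        · have := (hlen_le ⟨n, hn⟩ j).2 h1.le
          omega
  have hQi' : ∀ i : Fin N, (Q i).1 = ⟨P', chain c' i⟩ := by
    intro i
    rw [hQi i]
    have := hlen_eq i i.2
    simp only [Fin.eta, hlen] at this
    rw [this]
  refine ⟨P', c', ?_, ?_, ?_⟩
  · intro p
    constructor
    · intro hp
      obtain ⟨i, hi⟩ := hQ ⟨p, hp⟩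
      refine ⟨i, i.2, ?_⟩
      rw [← hQi' i, hi]
    · rintro ⟨i, hi, rfl⟩
      rw [← hQi' ⟨i, hi⟩]
      exact (Q ⟨i, hi⟩).2
  · intro i hi
    rw [← hQi' ⟨i, hi⟩]
    exact hmult (E ⟨i, hi⟩)
  · intro i hi j hj
    rw [← proximate_chain P' c' i j, ← hQprox ⟨i, hi⟩ ⟨j, hj⟩, hQi', hQi']

end Pool.Agent.TH359.Inf
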